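import Pool.Agent.W986.SVS.Red

/-!
# Single-vehicle scheduling on a path with release and handling times is NP-hard

The definitions are in `Pool.Agent.W986.SVS.Defs` and `Pool.Agent.NPC.Defs`.
-/

namespace Pool.Agent.Results.MP_6e49ee_lc.PathNPHard

open Pool.Agent.NPC Pool.Agent.W986.SVS

/-- Single-vehicle scheduling on a path with release times and positive handling times is NP-hard
(numbers are coded in binary; the reduction is from subset sum). It remains NP-hard when, moreover,
all travel times are symmetric and the vehicle starts at the left end of the path. -/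
theorem result :
    NPHardP (fun y : Inst × ℕ => Positive y.1 ∧ Schedulable y) ∧
    NPHardP (fun y : Inst × ℕ => (Positive y.1 ∧ Symmetric y.1 ∧ y.1.start = 0) ∧
      Schedulable y) := by
  constructor
  · refine HardI.toNPHardP ?_
    intro L hL
    obtain ⟨g, hg, hp, hgL⟩ := hard L hL
    exact ⟨g, hg, fun x => (hgL x).trans ⟨fun h => ⟨(hp x).2.1, h⟩, fun h => h.2⟩⟩
  · refine HardI.toNPHardP ?_
    intro L hL
    obtain ⟨g, hg, hp, hgL⟩ := hard L hL
    exact ⟨g, hg, fun x => (hgL x).trans
      ⟨fun h => ⟨⟨(hp x).2.1, (hp x).2.2, (hp x).1⟩, h⟩, fun h => h.2⟩⟩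

end Pool.Agent.Results.MP_6e49ee_lc.PathNPHard
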